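import Pool.Agent.Helper12_UNF.Stmts

set_option autoImplicit false

/-!
Squad UNF, modules FNB and FND: the Coxeter groups of types `B` and `D` are finite.
-/

namespace Unf.H21

open scoped Pointwise

/-! ### An abstract criterion -/

theorem closure_finite {G : Type} [Group G] (X : Set G) (hX : X.Finite)
    (h2 : ∀ x ∈ X, x * x = 1) (hc : ∀ x ∈ X, ∀ y ∈ X, x * y = y * x) :
    Finite (Subgroup.closure X) := by
  let _ : CommGroup (Subgroup.closure X) := Subgroup.closureCommGroupOfComm hc
  have : Group.FG (Subgroup.closure X) := by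
    have : Finite X := hX
    infer_instance
  have ht : Monoid.IsTorsion (Subgroup.closure X) := by
    intro g
    rw [isOfFinOrder_iff_pow_eq_one]
    refine ⟨2, by norm_num, ?_⟩
    have key : ∀ g ∈ Subgroup.closure X, g * g = 1 := by
      intro g hg
      induction hg using Subgroup.closure_induction with
      | mem x hx => exact h2 x hx
      | one => exact mul_one 1
      | mul x y hx hy ihx ihy =>
        have e : x * y = y * x := by
          have := mul_comm (⟨x, hx⟩ : Subgroup.closure X) ⟨y, hy⟩
          exact congrArg Subtype.val this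
        calc x * y * (x * y) = x * (y * x) * y := by group
          _ = x * (x * y) * y := by rw [e]
          _ = (x * x) * (y * y) := by group
          _ = 1 := by rw [ihx, ihy, mul_one]
      | inv x hx ih =>
        rw [← mul_inv_rev, ih, inv_one]
    apply Subtype.ext
    rw [pow_two]
    exact key g.1 g.2
  exact CommGroup.finite_of_fg_torsion _ ht

theorem finite_of {G : Type} [Group G] (X : Set G) (hX : X.Finite)
    (h2 : ∀ x ∈ X, x * x = 1) (hc : ∀ x ∈ X, ∀ y ∈ X, x * y = y * x)
    (A : Set G) (hA : Subgroup.closure A = ⊤) (hA2 : ∀ a ∈ A, a * a = 1)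
    (hn : ∀ a ∈ A, ∀ x ∈ X, a * x * a ∈ Subgroup.closure X)
    (K : Subgroup G) (hK : Finite K) (hAK : ∀ a ∈ A, a ∈ Subgroup.closure X ⊔ K) : Finite G := by
  have hfin := closure_finite X hX h2 hc
  set N := Subgroup.closure X with hN
  have hconj : ∀ a ∈ A, ∀ n ∈ N, a * n * a ∈ N := by
    intro a ha n hn'
    have haa := hA2 a ha
    induction hn' using Subgroup.closure_induction with
    | mem x hx => exact hn a ha x hx
    | one => rw [mul_one, haa]; exact N.one_mem
    | mul x y _ _ ihx ihy =>
      have : a * (x * y) * a = (a * x * a) * (a * y * a) := by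
        calc a * (x * y) * a = a * x * 1 * y * a := by group
          _ = a * x * (a * a) * y * a := by rw [haa]
          _ = (a * x * a) * (a * y * a) := by group
      rw [this]
      exact N.mul_mem ihx ihy
    | inv x _ ih =>
      have hai : a⁻¹ = a := inv_eq_of_mul_eq_one_left haa
      have : a * x⁻¹ * a = (a * x * a)⁻¹ := by
        rw [mul_inv_rev, mul_inv_rev, hai, mul_assoc]
      rw [this]
      exact N.inv_mem ih
  have hnorm : N.Normal := by
    rw [← Subgroup.normalizer_eq_top_iff, eq_top_iff, ← hA, Subgroup.closure_le]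
    intro a ha
    have haa := hA2 a ha
    have hai : a⁻¹ = a := inv_eq_of_mul_eq_one_left haa
    rw [SetLike.mem_coe, Subgroup.mem_normalizer_iff]
    intro n
    rw [hai]
    refine ⟨hconj a ha n, fun h => ?_⟩
    have h1 := hconj a ha _ h
    have : a * (a * n * a) * a = n := by
      calc a * (a * n * a) * a = (a * a) * n * (a * a) := by group
        _ = n := by rw [haa, one_mul, mul_one]
    rwa [this] at h1
  have htop : K ⊔ N = ⊤ := by
    rw [eq_top_iff, ← hA, Subgroup.closure_le]
    intro a ha
    rw [sup_comm]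
    exact hAK a ha
  have h1 : ((K ⊔ N : Subgroup G) : Set G) = (K : Set G) * N := Subgroup.mul_normal K N
  rw [htop, Subgroup.coe_top] at h1
  have h3 : (Set.univ : Set G).Finite := by
    rw [h1]
    exact Set.Finite.mul (Set.toFinite _) (Set.toFinite _)
  exact Set.finite_univ_iff.1 h3

/-! ### Chains -/

/-- the conjugates of `x` along the chain -/
def ch {G : Type} [Group G] (s : ℕ → G) (x : G) : ℕ → G
  | 0 => x
  | n + 1 => s n * ch s x n * s n

variable {G : Type} [Group G]

theorem comm_conj {a s x : G} (h1 : a * s = s * a) (h2 : a * x = x * a) :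
    a * (s * x * s) = (s * x * s) * a := by
  calc a * (s * x * s) = (a * s) * x * s := by group
    _ = s * (a * x) * s := by rw [h1]; group
    _ = s * x * (a * s) := by rw [h2]; group
    _ = (s * x * s) * a := by rw [h1]; group

variable {s : ℕ → G} {x : G} {m : ℕ}

theorem ch_sq (h2 : ∀ i, s i * s i = 1) (hx2 : x * x = 1) (i : ℕ) : ch s x i * ch s x i = 1 := by
  induction i with
  | zero => exact hx2
  | succ i ih =>
    show s i * ch s x i * s i * (s i * ch s x i * s i) = 1
    calc s i * ch s x i * s i * (s i * ch s x i * s i)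
        = s i * ch s x i * (s i * s i) * ch s x i * s i := by group
      _ = s i * (ch s x i * ch s x i) * s i := by rw [h2]; group
      _ = 1 := by rw [ih, mul_one, h2]

theorem chA (hc : ∀ i j, i + 2 ≤ j → j < m → s j * s i = s i * s j)
    (hx : ∀ j, 1 ≤ j → j < m → s j * x = x * s j) (i j : ℕ) (hij : i < j) (hj : j < m) :
    s j * ch s x i = ch s x i * s j := by
  induction i with
  | zero => exact hx j hij hj
  | succ i ih => exact comm_conj (hc i j (by omega) hj) (ih (by omega))

theorem chB (h2 : ∀ i, s i * s i = 1) (hc : ∀ i j, i + 2 ≤ j → j < m → s j * s i = s i * s j)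
    (hb : ∀ i, i + 1 < m → s i * s (i + 1) * s i = s (i + 1) * s i * s (i + 1))
    (hx : ∀ j, 1 ≤ j → j < m → s j * x = x * s j) (j i : ℕ) (hij : j + 2 ≤ i) (hi : i ≤ m) :
    s j * ch s x i = ch s x i * s j := by
  induction i, hij using Nat.le_induction with
  | base =>
    have hA := chA hc hx j (j + 1) (by omega) (by omega)
    have hb' := hb j (by omega)
    show s j * (s (j + 1) * (s j * ch s x j * s j) * s (j + 1)) =
      (s (j + 1) * (s j * ch s x j * s j) * s (j + 1)) * s j
    set a := s j
    set b := s (j + 1)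
    set y := ch s x j
    calc a * (b * (a * y * a) * b) = (a * b * a) * y * (a * b) := by group
      _ = b * a * (b * y) * (a * b) := by rw [hb']; group
      _ = b * a * y * (b * a * b) := by rw [hA]; group
      _ = b * a * y * (a * b * a) := by rw [hb']
      _ = (b * (a * y * a) * b) * a := by group
  | succ i hji ih =>
    have h3 : s j * s i = s i * s j := (hc j i hji (by omega)).symm
    exact comm_conj h3 (ih (by omega))

theorem chC (h2 : ∀ i, s i * s i = 1) (hc : ∀ i j, i + 2 ≤ j → j < m → s j * s i = s i * s j)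
    (hb : ∀ i, i + 1 < m → s i * s (i + 1) * s i = s (i + 1) * s i * s (i + 1))
    (hx : ∀ j, 1 ≤ j → j < m → s j * x = x * s j)
    (hx1 : 0 < m → x * (s 0 * x * s 0) = (s 0 * x * s 0) * x) (i j : ℕ) (hij : i < j)
    (hj : j ≤ m) : ch s x i * ch s x j = ch s x j * ch s x i := by
  induction i with
  | zero =>
    induction j, hij using Nat.le_induction with
    | base => exact hx1 hj
    | succ j hj1 ih =>
      exact comm_conj (hx j hj1 (by omega)).symm (ih (by omega))
  | succ i ih =>
    have h1 := chB h2 hc hb hx i j (by omega) hj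
    have h3 := ih (by omega)
    exact (comm_conj h1.symm h3.symm).symm

/-- the set of the conjugates -/
def chS (s : ℕ → G) (x : G) (m : ℕ) : Set G := ch s x '' Set.Iic m

theorem chS_fin : (chS s x m).Finite := (Set.finite_Iic m).image _

theorem chS_comm (h2 : ∀ i, s i * s i = 1) (hc : ∀ i j, i + 2 ≤ j → j < m → s j * s i = s i * s j)
    (hb : ∀ i, i + 1 < m → s i * s (i + 1) * s i = s (i + 1) * s i * s (i + 1))
    (hx : ∀ j, 1 ≤ j → j < m → s j * x = x * s j)
    (hx1 : 0 < m → x * (s 0 * x * s 0) = (s 0 * x * s 0) * x) :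
    ∀ a ∈ chS s x m, ∀ b ∈ chS s x m, a * b = b * a := by
  rintro _ ⟨i, hi, rfl⟩ _ ⟨j, hj, rfl⟩
  rcases lt_trichotomy i j with h | rfl | h
  · exact chC h2 hc hb hx hx1 i j h hj
  · rfl
  · exact (chC h2 hc hb hx hx1 j i h hi).symm

theorem chS_conj (h2 : ∀ i, s i * s i = 1) (hc : ∀ i j, i + 2 ≤ j → j < m → s j * s i = s i * s j)
    (hb : ∀ i, i + 1 < m → s i * s (i + 1) * s i = s (i + 1) * s i * s (i + 1))
    (hx : ∀ j, 1 ≤ j → j < m → s j * x = x * s j) (j : ℕ) (hj : j < m) :
    ∀ a ∈ chS s x m, s j * a * s j ∈ chS s x m := by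
  rintro _ ⟨i, hi, rfl⟩
  have hi' : i ≤ m := hi
  have hfix : s j * ch s x i = ch s x i * s j → s j * ch s x i * s j ∈ chS s x m := by
    intro h
    refine ⟨i, hi, ?_⟩
    rw [h, mul_assoc, h2, mul_one]
  rcases lt_trichotomy i j with h | rfl | h
  · exact hfix (chA hc hx i j h hj)
  · exact ⟨i + 1, Set.mem_Iic.2 (by omega), rfl⟩
  · rcases Nat.eq_or_lt_of_le (Nat.succ_le_of_lt h) with h' | h'
    · subst h'
      refine ⟨j, Set.mem_Iic.2 (by omega), ?_⟩
      show ch s x j = s j * (s j * ch s x j * s j) * s j
      calc ch s x j = 1 * ch s x j * 1 := by group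
        _ = (s j * s j) * ch s x j * (s j * s j) := by rw [h2]
        _ = _ := by group
    · exact hfix (chB h2 hc hb hx j i h' hi')

/-! ### Coxeter groups -/

variable {S : Type} (M : CoxeterMatrix S)

theorem sq1 (a : S) : M.simple a * M.simple a = 1 := by
  have := M.toCoxeterSystem.simple_mul_simple_self a
  simpa using this

theorem cox_rel (a b : S) : (M.simple a * M.simple b) ^ M.M a b = 1 := by
  have := M.toCoxeterSystem.simple_mul_simple_pow a b
  simpa using this

theorem inv1 (a : S) : (M.simple a)⁻¹ = M.simple a := inv_eq_of_mul_eq_one_left (sq1 M a)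

theorem rel2 {a b : S} (h : M.M a b = 2) :
    M.simple a * M.simple b = M.simple b * M.simple a := by
  have h1 := cox_rel M a b
  rw [h, pow_two] at h1
  have h3 := eq_inv_of_mul_eq_one_left h1
  rw [mul_inv_rev, inv1, inv1] at h3
  exact h3

theorem rel3 {a b : S} (h : M.M a b = 3) :
    M.simple a * M.simple b * M.simple a = M.simple b * M.simple a * M.simple b := by
  have h1 := cox_rel M a b
  rw [h] at h1
  have h2 : (M.simple a * M.simple b * M.simple a) * (M.simple b * M.simple a * M.simple b) = 1 := by
    rw [← h1]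
    simp only [pow_succ, pow_zero, one_mul, mul_assoc]
  have h3 := eq_inv_of_mul_eq_one_left h2
  rw [mul_inv_rev, mul_inv_rev, inv1, inv1, ← mul_assoc] at h3
  exact h3

theorem rel4 {a b : S} (h : M.M a b = 4) :
    M.simple a * (M.simple b * M.simple a * M.simple b) =
      (M.simple b * M.simple a * M.simple b) * M.simple a := by
  have h1 := cox_rel M a b
  rw [h] at h1
  have h2 : (M.simple a * M.simple b * M.simple a * M.simple b) *
      (M.simple a * M.simple b * M.simple a * M.simple b) = 1 := by
    rw [← h1]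
    simp only [pow_succ, pow_zero, one_mul, mul_assoc]
  have h3 := eq_inv_of_mul_eq_one_left h2
  rw [mul_inv_rev, mul_inv_rev, mul_inv_rev, inv1, inv1] at h3
  calc M.simple a * (M.simple b * M.simple a * M.simple b)
      = M.simple a * M.simple b * M.simple a * M.simple b := by group
    _ = _ := h3
    _ = _ := by group

theorem closure_simple : Subgroup.closure (Set.range M.simple) = ⊤ := by
  have := M.toCoxeterSystem.subgroup_closure_range_simple
  simpa using this

/-- the image of a finite Coxeter group in another one -/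
theorem finite_image {T : Type} (N : CoxeterMatrix T) (hN : Finite N.Group) (f : T → S)
    (hf : ∀ a b, M.M (f a) (f b) = N.M a b) :
    ∃ K : Subgroup M.Group, Finite K ∧ ∀ a, M.simple (f a) ∈ K := by
  have hl : N.IsLiftable (fun a => M.simple (f a)) := fun a b => by
    rw [← hf a b]
    exact cox_rel M (f a) (f b)
  let φ := N.toCoxeterSystem.lift ⟨fun a => M.simple (f a), hl⟩
  refine ⟨φ.range, ?_, fun a => ⟨N.simple a, ?_⟩⟩
  · have : (Set.range φ).Finite := Set.finite_range φ
    exact this
  · have := N.toCoxeterSystem.lift_apply_simple hl a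
    simpa using this

theorem fnb (hA : FnaStmt) : FnbStmt := by
  intro n
  rcases Nat.eq_zero_or_pos n with rfl | hn
  · have h1 : (⊤ : Subgroup (CoxeterMatrix.B 0).Group) = ⊥ := by
      rw [← closure_simple, Set.range_eq_empty, Subgroup.closure_empty]
    have h2 : ∀ g : (CoxeterMatrix.B 0).Group, g = 1 := fun g => by
      have : g ∈ (⊤ : Subgroup (CoxeterMatrix.B 0).Group) := trivial
      rw [h1] at this
      exact Subgroup.mem_bot.1 this
    exact (Set.finite_univ_iff.1 ((Set.finite_singleton (1 : (CoxeterMatrix.B 0).Group)).subset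
      fun g _ => h2 g))
  obtain ⟨m, rfl⟩ : ∃ m, n = m + 1 := ⟨n - 1, by omega⟩
  set M := CoxeterMatrix.B (m + 1) with hM
  obtain ⟨K, hK, hKm⟩ := finite_image M (CoxeterMatrix.A m) (hA m) Fin.castSucc (fun a b => by
    rw [hM]
    simp only [CoxeterMatrix.B, CoxeterMatrix.A, Matrix.of_apply, Fin.castSucc_inj, Fin.val_castSucc]
    have ha := a.2
    have hb := b.2
    by_cases hab : a = b
    · simp [hab]
    · rw [if_neg hab, if_neg hab, if_neg]
      rintro (⟨h1, h2⟩ | ⟨h1, h2⟩) <;> omega)
  let s : ℕ → M.Group := fun i => if h : i < m then M.simple ⟨m - 1 - i, by omega⟩ else 1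
  have hs : ∀ i (h : i < m), s i = M.simple ⟨m - 1 - i, by omega⟩ := fun i h => dif_pos h
  have hs' : ∀ i, ¬ i < m → s i = 1 := fun i h => dif_neg h
  let x : M.Group := M.simple (Fin.last m)
  have h2 : ∀ i, s i * s i = 1 := fun i => by
    by_cases h : i < m
    · rw [hs i h]; exact sq1 M _
    · rw [hs' i h, mul_one]
  have hc : ∀ i j, i + 2 ≤ j → j < m → s j * s i = s i * s j := fun i j hij hj => by
    rw [hs j hj, hs i (by omega)]
    apply rel2
    rw [hM]
    simp only [CoxeterMatrix.B, Matrix.of_apply, Fin.mk.injEq]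
    rw [if_neg (by omega), if_neg (by omega), if_neg (by omega)]
  have hb : ∀ i, i + 1 < m → s i * s (i + 1) * s i = s (i + 1) * s i * s (i + 1) := fun i hi => by
    rw [hs i (by omega), hs (i + 1) hi]
    apply rel3
    rw [hM]
    simp only [CoxeterMatrix.B, Matrix.of_apply, Fin.mk.injEq]
    rw [if_neg (by omega), if_neg (by omega), if_pos (by omega)]
  have hx : ∀ j, 1 ≤ j → j < m → s j * x = x * s j := fun j h1 hj => by
    rw [hs j hj]
    apply rel2
    rw [hM]
    simp only [CoxeterMatrix.B, Matrix.of_apply, Fin.ext_iff, Fin.val_last]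
    rw [if_neg (by omega), if_neg (by omega), if_neg (by omega)]
  have hx1 : 0 < m → x * (s 0 * x * s 0) = (s 0 * x * s 0) * x := fun h => by
    rw [hs 0 h]
    apply rel4
    rw [hM]
    simp only [CoxeterMatrix.B, Matrix.of_apply, Fin.ext_iff, Fin.val_last]
    rw [if_neg (by omega), if_pos (by omega)]
  have hgen : ∀ i : Fin (m + 1), M.simple i = x ∨ ∃ j < m, M.simple i = s j := fun i => by
    rcases Nat.eq_or_lt_of_le (Nat.le_of_lt_succ i.2) with h | h
    · left
      show M.simple i = M.simple (Fin.last m)
      congr 1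
      exact Fin.ext h
    · right
      refine ⟨m - 1 - i, by omega, ?_⟩
      rw [hs _ (by omega)]
      congr 1
      apply Fin.ext
      show i.1 = m - 1 - (m - 1 - i)
      omega
  have hx0 : x ∈ chS s x m := ⟨0, Set.mem_Iic.2 (Nat.zero_le _), rfl⟩
  refine finite_of (chS s x m) chS_fin ?_ (chS_comm h2 hc hb hx hx1) (Set.range M.simple)
    (closure_simple M) ?_ ?_ K hK ?_
  · rintro _ ⟨i, _, rfl⟩
    exact ch_sq h2 (sq1 M _) i
  · rintro _ ⟨i, rfl⟩
    exact sq1 M i
  · rintro _ ⟨i, rfl⟩ y hy
    rcases hgen i with h | ⟨j, hj, h⟩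
    · rw [h]
      exact mul_mem (mul_mem (Subgroup.subset_closure hx0) (Subgroup.subset_closure hy))
        (Subgroup.subset_closure hx0)
    · rw [h]
      exact Subgroup.subset_closure (chS_conj h2 hc hb hx j hj y hy)
  · rintro _ ⟨i, rfl⟩
    rcases Nat.eq_or_lt_of_le (Nat.le_of_lt_succ i.2) with h | h
    · have : i = Fin.last m := Fin.ext h
      rw [this]
      exact (le_sup_left : Subgroup.closure (chS s x m) ≤ _) (Subgroup.subset_closure hx0)
    · exact (le_sup_right : K ≤ _) (hKm ⟨i, h⟩)

theorem fnd (hA : FnaStmt) : FndStmt := by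
  intro n
  set M := Dm n with hM
  obtain ⟨K, hK, hKm⟩ := finite_image M (CoxeterMatrix.A n) (hA n) some (fun a b => rfl)
  rcases Nat.eq_zero_or_pos n with rfl | hn
  · refine finite_of {M.simple none} (Set.finite_singleton _) ?_ ?_ (Set.range M.simple)
      (closure_simple M) ?_ ?_ K hK ?_
    · rintro _ rfl
      exact sq1 M _
    · rintro _ rfl _ rfl
      rfl
    · rintro _ ⟨i, rfl⟩
      exact sq1 M i
    · rintro _ ⟨i, rfl⟩ _ rfl
      rcases i with _ | i
      · rw [sq1, one_mul]
        exact Subgroup.subset_closure rfl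
      · exact i.elim0
    · rintro _ ⟨i, rfl⟩
      rcases i with _ | i
      · exact (le_sup_left : Subgroup.closure {M.simple none} ≤ _) (Subgroup.subset_closure rfl)
      · exact i.elim0
  let m := n - 1
  have hm : m + 1 = n := Nat.sub_add_cancel hn
  let s : ℕ → M.Group := fun i => if h : i < m then M.simple (some ⟨i + 1, by omega⟩) else 1
  have hs : ∀ i (h : i < m), s i = M.simple (some ⟨i + 1, by omega⟩) := fun i h => dif_pos h
  have hs' : ∀ i, ¬ i < m → s i = 1 := fun i h => dif_neg h
  let a : M.Group := M.simple none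
  let b : M.Group := M.simple (some ⟨0, hn⟩)
  have hab : a * b = b * a := by
    apply rel2
    show (if (0 : ℕ) = 1 then 3 else 2) = 2
    norm_num
  let x : M.Group := a * b
  have ha2 : a * a = 1 := sq1 M _
  have hb2 : b * b = 1 := sq1 M _
  have hx2 : x * x = 1 := by
    show a * b * (a * b) = 1
    calc a * b * (a * b) = a * (b * a) * b := by group
      _ = (a * a) * (b * b) := by rw [← hab]; group
      _ = 1 := by rw [ha2, hb2, mul_one]
  have h2 : ∀ i, s i * s i = 1 := fun i => by
    by_cases h : i < m
    · rw [hs i h]; exact sq1 M _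
    · rw [hs' i h, mul_one]
  have hc : ∀ i j, i + 2 ≤ j → j < m → s j * s i = s i * s j := fun i j hij hj => by
    rw [hs j hj, hs i (by omega)]
    apply rel2
    show (CoxeterMatrix.A n).M _ _ = 2
    simp only [CoxeterMatrix.A, Matrix.of_apply, Fin.mk.injEq]
    rw [if_neg (by omega), if_neg (by omega)]
  have hb : ∀ i, i + 1 < m → s i * s (i + 1) * s i = s (i + 1) * s i * s (i + 1) := fun i hi => by
    rw [hs i (by omega), hs (i + 1) hi]
    apply rel3
    show (CoxeterMatrix.A n).M _ _ = 3
    simp only [CoxeterMatrix.A, Matrix.of_apply, Fin.mk.injEq]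
    rw [if_neg (by omega), if_pos (Or.inr trivial)]
  have hja : ∀ j, 1 ≤ j → j < m → s j * a = a * s j := fun j h1 hj => by
    rw [hs j hj]
    apply rel2
    show (if j + 1 = 1 then 3 else 2) = 2
    rw [if_neg (by omega)]
  have hjb : ∀ j, 1 ≤ j → j < m → s j * b = b * s j := fun j h1 hj => by
    rw [hs j hj]
    apply rel2
    show (CoxeterMatrix.A n).M ⟨j + 1, by omega⟩ ⟨0, hn⟩ = 2
    simp only [CoxeterMatrix.A, Matrix.of_apply, Fin.mk.injEq]
    rw [if_neg (by omega), if_neg (by omega)]
  have hx : ∀ j, 1 ≤ j → j < m → s j * x = x * s j := fun j h1 hj => by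
    show s j * (a * b) = a * b * s j
    rw [← mul_assoc, hja j h1 hj, mul_assoc, hjb j h1 hj, mul_assoc]
  have h0a : 0 < m → s 0 * a * s 0 = a * s 0 * a := fun h => by
    rw [hs 0 h]
    apply rel3
    show (if 0 + 1 = 1 then 3 else 2) = 3
    norm_num
  have h0b : 0 < m → s 0 * b * s 0 = b * s 0 * b := fun h => by
    rw [hs 0 h]
    apply rel3
    show (CoxeterMatrix.A n).M ⟨0 + 1, by omega⟩ ⟨0, hn⟩ = 3
    simp only [CoxeterMatrix.A, Matrix.of_apply, Fin.mk.injEq]
    simp
  -- conjugation by b
  have key : 0 < m → b * (s 0 * x * s 0) * b = x * (s 0 * x * s 0) := fun h => by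
    have e1 := h0a h
    have e2 := h0b h
    have e3 := h2 0
    set c := s 0
    show b * (c * (a * b) * c) * b = a * b * (c * (a * b) * c)
    calc b * (c * (a * b) * c) * b = b * (c * a) * 1 * (b * c * b) := by group
      _ = b * (c * a) * (c * c) * (c * b * c) := by rw [e2, e3]
      _ = b * (c * a * c) * (c * c) * b * c := by group
      _ = b * (a * c * a) * b * c := by rw [e1, e3]; group
      _ = (b * a) * (c * (a * b) * c) := by group
      _ = a * b * (c * (a * b) * c) := by rw [hab]
  have hx1 : 0 < m → x * (s 0 * x * s 0) = (s 0 * x * s 0) * x := fun h => by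
    have e1 := h0a h
    have e2 := h0b h
    have e3 := h2 0
    have e4 := key h
    set c := s 0
    -- the same with a in place of b
    have e5 : a * (c * x * c) * a = x * (c * x * c) := by
      show a * (c * (a * b) * c) * a = a * b * (c * (a * b) * c)
      calc a * (c * (a * b) * c) * a = a * (c * (b * a) * c) * a := by rw [hab]
        _ = a * (c * b) * 1 * (a * c * a) := by group
        _ = a * (c * b) * (c * c) * (c * a * c) := by rw [e1, e3]
        _ = a * (c * b * c) * (c * c) * a * c := by group
        _ = a * (b * c * b) * a * c := by rw [e2, e3]; group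
        _ = a * b * (c * (b * a) * c) := by group
        _ = a * b * (c * (a * b) * c) := by rw [hab]
    have e6 : b * (c * x * c) * b = a * (c * x * c) * a := by rw [e4, e5]
    calc x * (c * x * c) = a * (a * 1 * a) * (b * (c * x * c) * b) * b * 1 := by
          show a * b * (c * x * c) = _
          calc a * b * (c * x * c) = a * 1 * b * (c * x * c) * 1 := by group
            _ = a * (a * a) * b * (c * x * c) * (b * b) := by rw [ha2, hb2]
            _ = _ := by group
      _ = a * (a * 1 * a) * (a * (c * x * c) * a) * b * 1 := by rw [e6]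
      _ = (a * a) * (a * a) * (c * x * c) * (a * b) := by group
      _ = (c * x * c) * x := by rw [ha2, one_mul, one_mul]
  have hx0 : x ∈ chS s x m := ⟨0, Set.mem_Iic.2 (Nat.zero_le _), rfl⟩
  have hxb : b * x * b = x := by
    show b * (a * b) * b = a * b
    calc b * (a * b) * b = b * a * (b * b) := by group
      _ = a * b := by rw [hb2, mul_one, hab]
  have hconjb : ∀ i ≤ m, b * ch s x i * b = if i = 0 then x else x * ch s x i := by
    intro i hi
    rcases Nat.eq_zero_or_pos i with rfl | hi0
    · exact hxb
    · rw [if_neg (by omega)]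
      induction i, hi0 using Nat.le_induction with
      | base => exact key hi
      | succ i hi1 ih =>
        have e1 := hjb i hi1 (by omega)
        have e2 := hx i hi1 (by omega)
        have e3 := ih (by omega)
        show b * (s i * ch s x i * s i) * b = x * (s i * ch s x i * s i)
        calc b * (s i * ch s x i * s i) * b = (b * s i) * ch s x i * (s i * b) := by group
          _ = (s i * b) * ch s x i * (b * s i) := by rw [e1]
          _ = s i * (b * ch s x i * b) * s i := by group
          _ = (s i * x) * ch s x i * s i := by rw [e3]; group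
          _ = x * (s i * ch s x i * s i) := by rw [e2]; group
  have hN : ∀ i ≤ m, ch s x i ∈ Subgroup.closure (chS s x m) := fun i hi =>
    Subgroup.subset_closure ⟨i, hi, rfl⟩
  have hconjb' : ∀ y ∈ chS s x m, b * y * b ∈ Subgroup.closure (chS s x m) := by
    rintro _ ⟨i, hi, rfl⟩
    rw [hconjb i hi]
    split_ifs
    · exact Subgroup.subset_closure hx0
    · exact mul_mem (Subgroup.subset_closure hx0) (hN i hi)
  have hax : a = x * b := by
    show a = a * b * b
    rw [mul_assoc, hb2, mul_one]
  have hax' : a = b * x := by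
    show a = b * (a * b)
    rw [← mul_assoc, ← hab, mul_assoc, hb2, mul_one]
  have hcomm := chS_comm h2 hc hb hx hx1
  refine finite_of (chS s x m) chS_fin ?_ hcomm (Set.range M.simple)
    (closure_simple M) ?_ ?_ K hK ?_
  · rintro _ ⟨i, _, rfl⟩
    exact ch_sq h2 hx2 i
  · rintro _ ⟨i, rfl⟩
    exact sq1 M i
  · rintro _ ⟨i, rfl⟩ y hy
    rcases i with _ | i
    · show a * y * a ∈ _
      have : a * y * a = x * (b * y * b) * x := by
        calc a * y * a = (x * b) * y * (b * x) := by rw [← hax, ← hax']
          _ = x * (b * y * b) * x := by group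
      rw [this]
      exact mul_mem (mul_mem (Subgroup.subset_closure hx0) (hconjb' y hy))
        (Subgroup.subset_closure hx0)
    · rcases Nat.eq_zero_or_pos i.1 with h | h
      · have : i = ⟨0, hn⟩ := Fin.ext h
        rw [this]
        exact hconjb' y hy
      · have e : M.simple (some i) = s (i.1 - 1) := by
          rw [hs _ (by omega)]
          congr 2
          apply Fin.ext
          show i.1 = i.1 - 1 + 1
          omega
        rw [e]
        exact Subgroup.subset_closure (chS_conj h2 hc hb hx (i.1 - 1) (by omega) y hy)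
  · rintro _ ⟨i, rfl⟩
    rcases i with _ | i
    · show a ∈ _
      rw [hax]
      exact mul_mem ((le_sup_left : Subgroup.closure (chS s x m) ≤ _)
        (Subgroup.subset_closure hx0)) ((le_sup_right : K ≤ _) (hKm _))
    · exact (le_sup_right : K ≤ _) (hKm i)

end Unf.H21
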